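import Pool.Agent.Y136.DO.Colour

/-!
# Selection principles for `D_Ω`: all mixed games, and partition relations

The starting results `GameOne` and `GameFin` characterise `S_1(D_Ω, D_Ω)` and `S_fin(D_Ω, D_Ω)` by the
games `G_1` and `G_fin`. Here, for every topological space:

* the bounds on the number of selected sets are arbitrary: for every sequence `m` of numbers in
  `{0, 1, 2, ..., ∞}` the mixed principle `S_m(D_Ω, D_Ω)` is equivalent to the absence of a winning
  strategy of ONE in the mixed game `G_m(D_Ω, D_Ω)`;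
* up to equivalence there are only two nontrivial mixed principles, `S_1` and `S_fin`;
* `S_1(D_Ω, D_Ω)` is equivalent to Ramsey's partition relation, and `S_fin(D_Ω, D_Ω)` to the partition
  relation of Baumgartner and Taylor, for each dimension `n ≥ 2` and each number `k ≥ 2` of colours.
-/

set_option autoImplicit false

namespace Pool.Agent.Results.MP_549d70_gt.GamesAndColourings

open Set Pool.Agent.Y136.DO

universe u

/-- Let `X` be a topological space. (1) For every `m : ℕ → {0, 1, 2, ..., ∞}` the principle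
`S_m(D_Ω, D_Ω)` holds if and only if ONE has no winning strategy in the game `G_m(D_Ω, D_Ω)`.
(2) `S_m` is `S_fin` if infinitely many `m n` are infinite; (3) `S_m` is `S_1` if only finitely many
`m n` are infinite and infinitely many are not zero. (4) `S_1(D_Ω, D_Ω)` holds if and only if ONE has
no winning strategy in `G_1(D_Ω, D_Ω)`; (5) `S_fin(D_Ω, D_Ω)` holds if and only if ONE has no winning
strategy in `G_fin(D_Ω, D_Ω)` (the case `m = ∞`). (6) For all `n, k ≥ 2`: `S_1(D_Ω, D_Ω)` is equivalent
to the partition relation `D_Ω → (D_Ω)^n_k` with countable homogeneous families, and (7)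
`S_fin(D_Ω, D_Ω)` to the relation of Baumgartner and Taylor. -/
theorem result (X : Type u) [TopologicalSpace X] :
    (∀ m : ℕ → ℕ∞, Smix m X ↔
      ¬ ∃ σ : List (Set (Set X)) → Set (Set X), Winning m X σ) ∧
    (∀ m : ℕ → ℕ∞, {n | m n = ⊤}.Infinite → (Smix m X ↔ Sfin X)) ∧
    (∀ m : ℕ → ℕ∞, {n | m n = ⊤}.Finite → {n | m n ≠ 0}.Infinite → (Smix m X ↔ S1 X)) ∧
    (S1 X ↔ ¬ ∃ σ : List (Set X) → Set (Set X), WinningOne X σ) ∧
    (Sfin X ↔ ¬ ∃ σ : List (Set (Set X)) → Set (Set X), Winning (fun _ => ⊤) X σ) ∧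
    (∀ n k : ℕ, 2 ≤ n → 2 ≤ k → (S1 X ↔ Ramsey X n k)) ∧
    (∀ n k : ℕ, 2 ≤ n → 2 ≤ k → (Sfin X ↔ BaumgartnerTaylor X n k)) := by
  refine ⟨fun m => smix_iff m, fun m hm => smix_iff_sfin hm, fun m h1 h2 => smix_iff_s1 h2 h1,
    s1_iff, ?_, fun n k hn hk => s1_iff_ramsey hn hk, fun n k hn hk => sfin_iff_bt hn hk⟩
  rw [← smix_iff_sfin (m := fun _ => ⊤) (by simpa using infinite_univ)]
  exact smix_iff _

end Pool.Agent.Results.MP_549d70_gt.GamesAndColourings
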